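import Mathlib
import Pool.Agent.FBZ.Lin

/-!
# A polycyclic group of integer matrices whose identities have no finite basis
-/

set_option autoImplicit false

open scoped MatrixGroups

namespace Pool.Agent.Results.MP_a84a61_al.PolycyclicMatrixGroup

theorem two_zero : (2 : RatFunc (ZMod 2)) = 0 := by
  have h : (2 : ZMod 2) = 0 := by decide
  have := congrArg (algebraMap (ZMod 2) (RatFunc (ZMod 2))) h
  rwa [map_zero, map_ofNat] at this

theorem X_pow_ne (m : ℕ) (h : (RatFunc.X : RatFunc (ZMod 2)) ^ m = 1) : m = 0 := by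
  have h1 : algebraMap (Polynomial (ZMod 2)) (RatFunc (ZMod 2)) (Polynomial.X ^ m) =
      algebraMap (Polynomial (ZMod 2)) (RatFunc (ZMod 2)) 1 := by
    rw [map_pow, RatFunc.algebraMap_X, h, map_one]
  have h2 := RatFunc.algebraMap_injective _ h1
  have h3 := congrArg Polynomial.natDegree h2
  simpa using h3

noncomputable def tX : (RatFunc (ZMod 2))ˣ := Units.mk0 RatFunc.X RatFunc.X_ne_zero

theorem tX_pow (m : ℤ) (h : tX ^ m = 1) : m = 0 := by
  have h1 : (RatFunc.X : RatFunc (ZMod 2)) ^ m = 1 := by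
    have := congrArg (fun u : (RatFunc (ZMod 2))ˣ => (u : RatFunc (ZMod 2))) h
    simpa [tX] using this
  rcases Int.eq_nat_or_neg m with ⟨k, rfl | rfl⟩
  · rw [zpow_natCast] at h1
    rw [X_pow_ne k h1]
    rfl
  · rw [zpow_neg, inv_eq_one, zpow_natCast] at h1
    rw [X_pow_ne k h1]
    rfl

/-- The identities of `G` have a finite basis. -/
def FinitelyBased (G : Type) [Group G] : Prop :=
  ∃ S : Finset (FreeGroup ℕ), ∀ w : FreeGroup ℕ, (∀ f : ℕ → G, FreeGroup.lift f w = 1) ↔
    w ∈ Subgroup.normalClosure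
      {u : FreeGroup ℕ | ∃ φ : FreeGroup ℕ →* FreeGroup ℕ, ∃ s ∈ S, u = φ s}

/-- Solvable, with all subgroups finitely generated. -/
def Polycyclic (G : Type) [Group G] : Prop :=
  Group.IsSolvable G ∧ ∀ H : Subgroup G, H.FG

/-- All elements of `G` are matrices with integer entries. -/
def IntegerEntries {n : ℕ} {K : Type} [Field K] (G : Subgroup (GL (Fin n) K)) : Prop :=
  ∀ g ∈ G, ∀ i j : Fin n, ∃ z : ℤ, (g : Matrix (Fin n) (Fin n) K) i j = (z : K)

/-- There is an `n` such that over every field `K` of characteristic `0` the group `GL_n(K)` has a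
subgroup `G`, all of whose elements have integer entries, which is solvable, all of whose subgroups
are finitely generated, and whose identities have no finite basis. -/
theorem result : ∃ n : ℕ, ∀ (K : Type) [Field K] [CharZero K],
    ∃ G : Subgroup (GL (Fin n) K), IntegerEntries G ∧ Polycyclic G ∧ ¬ FinitelyBased G := by
  refine ⟨FBZ.dd, fun K _ _ => ⟨(FBZ.mtxK K).range, ?_, ?_⟩⟩
  · rintro _ ⟨x, rfl⟩ i j
    exact FBZ.mtxK_int K x i j
  · obtain ⟨h1, h2, h3⟩ := FBZ.range_not _ (FBZ.mtxK K) (FBZ.mtxK_inj K)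
    exact ⟨⟨h1, h2⟩, h3 (RatFunc (ZMod 2)) two_zero tX tX_pow⟩

end Pool.Agent.Results.MP_a84a61_al.PolycyclicMatrixGroup
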